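import Pool.Agent.P8H38.RE.NetCore
import Pool.Agent.P8H72.RE.Stm

/-!
# Package NET of project RE (helper72), proved by helper38
-/

set_option autoImplicit false

open scoped Topology ComplexOrder InnerProductSpace
open Filter Matrix

namespace Pool.Agent.P8H38.RE

open Pool.Agent.W661.RC (hs)
open Pool.Agent.W683.RC (hs_nonneg)
open Pool.Agent.P8H72.RE
open Pool.Agent.N557.QWX (Op tr IsTracial IsHom)
open Pool.Agent.N859.QX (QWEP)

noncomputable section

variable {H : Type} [NormedAddCommGroup H] [InnerProductSpace ℂ H] [CompleteSpace H]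

/-- finite models -/
theorem loc (hMTA : S_MTA) (hMTB : S_MTB) (A : VonNeumannAlgebra H) (ξ : H)
    (hA : IsTracial A ξ) (hq : QWEP A) (S : Finset (UA A)) (ε : ℝ) (hε : 0 < ε) :
    ∃ (m : ℕ) (W : UA A → unitaryGroup (Fin m) ℂ), 0 < m ∧
      (∀ g ∈ S, ∀ h ∈ S, hs ((W (g * h)).1 - (W g).1 * (W h).1) ≤ ε * m) ∧
      ∀ g ∈ S, ‖trace (W g).1 / m - tr ξ ((g : unitary (Op H)) : Op H)‖ ≤ ε := by
  classical
  obtain ⟨ε₁, h1, hB⟩ := hMTB (ε / 2) (by positivity)
  obtain ⟨n, φ, T, hT, hT1, hc, hm, ht⟩ := hMTA H A ξ hA hq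
    (S ∪ Finset.image₂ (fun a b => a * b) S S) (min ε₁ (ε / 2)) (lt_min h1 (by positivity))
  set S' := S ∪ Finset.image₂ (fun a b => a * b) S S with hS'
  obtain ⟨m, W, hm0, hW, hWt⟩ := hB n {g // g ∈ S'} (fun g => φ g.1) T hT hT1
    (fun g => (hc g.1 g.2).trans (min_le_left _ _))
  refine ⟨m, fun g => if h : g ∈ S' then W ⟨g, h⟩ else 1, hm0, ?_, ?_⟩
  · intro g hg h hh
    have hg' : g ∈ S' := Finset.mem_union_left _ hg
    have hh' : h ∈ S' := Finset.mem_union_left _ hh
    have hgh : g * h ∈ S' := Finset.mem_union_right _ (Finset.mem_image₂_of_mem hg hh)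
    simp only [dif_pos hg', dif_pos hh', dif_pos hgh]
    have h2 := hW ⟨g, hg'⟩ ⟨h, hh'⟩ ⟨g * h, hgh⟩ ((hm g hg' h hh').trans (min_le_left _ _))
    have h3 : (0 : ℝ) ≤ m := Nat.cast_nonneg _
    nlinarith
  · intro g hg
    have hg' : g ∈ S' := Finset.mem_union_left _ hg
    simp only [dif_pos hg']
    have h2 := hWt ⟨g, hg'⟩
    have h3 := (ht g hg').trans (min_le_right _ _)
    calc _ = ‖(trace (W ⟨g, hg'⟩).1 / m - trace (T * (φ g).1 * T)) +
          (trace (T * (φ g).1 * T) - tr ξ ((g : unitary (Op H)) : Op H))‖ := by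
            congr 1; ring
      _ ≤ ε / 2 + ε / 2 := (norm_add_le _ _).trans (add_le_add h2 h3)
      _ = ε := by ring

/-- evaluation of finite sums of unitaries -/
def Pf (A : VonNeumannAlgebra H) : (UA A →₀ ℂ) →ₗ[ℂ] Op H :=
  Finsupp.linearCombination ℂ (fun g : UA A => ((g : unitary (Op H)) : Op H))

theorem Pf_eq (A : VonNeumannAlgebra H) (f : UA A →₀ ℂ) :
    Pf A f = ∑ a ∈ f.support, f a • ((a : unitary (Op H)) : Op H) := by
  unfold Pf
  rw [Finsupp.linearCombination_apply, Finsupp.sum]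

theorem Pf_single (A : VonNeumannAlgebra H) (g : UA A) (c : ℂ) :
    Pf A (Finsupp.single g c) = c • ((g : unitary (Op H)) : Op H) := by
  unfold Pf
  rw [Finsupp.linearCombination_single]

theorem exists_f (A : VonNeumannAlgebra H) (x : Op H) (hx : x ∈ A) : ∃ f, Pf A f = x := by
  have : IsClosed (A.toStarSubalgebra : Set (Op H)) := by
    have h1 : (A.toStarSubalgebra : Set (Op H)) =
        Set.centralizer (Set.centralizer (A : Set (Op H))) :=
      (VonNeumannAlgebra.centralizer_centralizer A).symm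
    rw [h1]
    exact Set.isClosed_centralizer _
  obtain ⟨u, c, hxu, -⟩ := CStarAlgebra.exists_sum_four_unitary
    (⟨x, hx⟩ : A.toStarSubalgebra)
  have hu : ∀ i, ((u i : A.toStarSubalgebra) : Op H) ∈ unitary (Op H) := by
    intro i
    have h := (u i).2
    rw [Unitary.mem_iff] at h ⊢
    exact ⟨congrArg Subtype.val h.1, congrArg Subtype.val h.2⟩
  have hu2 : ∀ i, (⟨((u i : A.toStarSubalgebra) : Op H), hu i⟩ : unitary (Op H)) ∈ UA A :=
    fun i => (u i : A.toStarSubalgebra).2
  refine ⟨∑ i, Finsupp.single (⟨⟨((u i : A.toStarSubalgebra) : Op H), hu i⟩, hu2 i⟩ : UA A) (c i),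
    ?_⟩
  rw [map_sum]
  simp only [Pf_single]
  have h2 := congrArg (Subtype.val : A.toStarSubalgebra → Op H) hxu
  simp only at h2
  rw [h2]
  simp

theorem Pf_mem (A : VonNeumannAlgebra H) (f : UA A →₀ ℂ) : Pf A f ∈ A := by
  rw [Pf_eq]
  exact sum_mem fun a _ => A.toStarSubalgebra.smul_mem a.2 _

theorem Pf_mul (A : VonNeumannAlgebra H) (f g : UA A →₀ ℂ) :
    Pf A (mulF f g) = Pf A f * Pf A g := by
  rw [mulF, map_sum, Pf_eq A f, Pf_eq A g, Finset.sum_mul_sum]
  refine Finset.sum_congr rfl fun a _ => ?_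
  rw [map_sum]
  refine Finset.sum_congr rfl fun b _ => ?_
  rw [Pf_single, smul_mul_smul_comm]
  rfl

theorem Pf_star (A : VonNeumannAlgebra H) (f : UA A →₀ ℂ) :
    Pf A (stF f) = star (Pf A f) := by
  rw [stF, map_sum, Pf_eq A f, star_sum]
  refine Finset.sum_congr rfl fun a _ => ?_
  rw [Pf_single, star_smul]
  rfl

theorem tr_Pf (A : VonNeumannAlgebra H) (ξ : H) (f : UA A →₀ ℂ) :
    ∑ a ∈ f.support, f a * tr ξ ((a : unitary (Op H)) : Op H) = tr ξ (Pf A f) := by
  rw [Pf_eq]
  simp only [tr, _root_.sum_apply, _root_.smul_apply, inner_sum,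
    inner_smul_right]

theorem inner_Pf (A : VonNeumannAlgebra H) (ξ : H) (f : UA A →₀ ℂ) :
    ∑ a ∈ f.support, ∑ b ∈ f.support, star (f a) * f b *
      tr ξ (((a⁻¹ * b : UA A) : unitary (Op H)) : Op H) = ⟪Pf A f ξ, Pf A f ξ⟫_ℂ := by
  rw [Pf_eq]
  simp only [_root_.sum_apply, _root_.smul_apply, inner_sum, sum_inner,
    inner_smul_right, inner_smul_left]
  rw [Finset.sum_comm]
  refine Finset.sum_congr rfl fun b _ => ?_
  rw [Finset.mul_sum]
  refine Finset.sum_congr rfl fun a _ => ?_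
  have h1 : (((a⁻¹ * b : UA A) : unitary (Op H)) : Op H) =
      star ((a : unitary (Op H)) : Op H) * ((b : unitary (Op H)) : Op H) := rfl
  rw [h1]
  have h2 : tr ξ (star ((a : unitary (Op H)) : Op H) * ((b : unitary (Op H)) : Op H)) =
      ⟪((a : unitary (Op H)) : Op H) ξ, ((b : unitary (Op H)) : Op H) ξ⟫_ℂ := by
    unfold tr
    rw [ContinuousLinearMap.mul_apply, ContinuousLinearMap.star_eq_adjoint,
      ContinuousLinearMap.adjoint_inner_right]
  rw [h2]
  simp only [starRingEnd_apply]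
  ring

/-- **NET** -/
theorem t_NET (hMTA : S_MTA) (hMTB : S_MTB) : S_NET := by
  intro H _ _ _ A ξ hA hq
  classical
  have h0 := fun i : Finset (UA A) × ℕ => loc hMTA hMTB A ξ hA hq i.1 (1 / ((i.2 : ℝ) + 1))
    (by positivity)
  choose n W hn hW hWt using h0
  have hlim : Tendsto (fun i : Finset (UA A) × ℕ => 1 / ((i.2 : ℝ) + 1)) atTop (𝓝 0) := by
    have h1 : Tendsto (fun i : Finset (UA A) × ℕ => i.2) atTop atTop := by
      rw [← prod_atTop_atTop_eq]
      exact tendsto_snd
    exact tendsto_one_div_add_atTop_nhds_zero_nat.comp h1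
  have hev : ∀ g : UA A, ∀ᶠ i : Finset (UA A) × ℕ in atTop, g ∈ i.1 := by
    intro g
    filter_upwards [eventually_ge_atTop (({g}, 0) : Finset (UA A) × ℕ)] with i hi
    exact hi.1 (Finset.mem_singleton_self g)
  have hmul : ∀ g h : UA A, Null atTop n (fun i => (W i (g * h)).1 - (W i g).1 * (W i h).1) := by
    intro g h
    refine squeeze_zero' (Eventually.of_forall fun i =>
      div_nonneg (hs_nonneg _) (Nat.cast_nonneg _)) ?_ hlim
    filter_upwards [hev g, hev h] with i hg hh
    have hn0 : (0 : ℝ) < n i := Nat.cast_pos.2 (hn i)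
    rw [div_le_iff₀ hn0]
    exact hW i g hg h hh
  have htr : ∀ g : UA A, Tendsto (fun i => Matrix.trace (W i g).1 / (n i : ℂ)) atTop
      (𝓝 (tr ξ ((g : unitary (Op H)) : Op H))) := by
    intro g
    rw [tendsto_iff_norm_sub_tendsto_zero]
    refine squeeze_zero' (Eventually.of_forall fun i => norm_nonneg _) ?_ hlim
    filter_upwards [hev g] with i hg
    exact hWt i g hg
  -- relations
  have rel : ∀ f : UA A →₀ ℂ, Pf A f = 0 → Null atTop n (fun i => Lf W i f) := by
    intro f hf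
    have h1 := hs_lim hmul hn (fun g => tr ξ ((g : unitary (Op H)) : Op H)) htr f
    rw [inner_Pf, hf] at h1
    have h2 : (⟪(0 : Op H) ξ, (0 : Op H) ξ⟫_ℂ).re = 0 := by simp
    rw [h2] at h1
    exact h1
  have rel2 : ∀ f g : UA A →₀ ℂ, Pf A f = Pf A g →
      Null atTop n (fun i => Lf W i f - Lf W i g) := by
    intro f g hfg
    refine (rel (f - g) (by rw [map_sub, hfg, sub_self])).congr fun i => ?_
    rw [map_sub]
  -- the section
  have hs0 : ∀ x : Op H, ∃ f : UA A →₀ ℂ, x ∈ A → Pf A f = x := by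
    intro x
    by_cases hx : x ∈ A
    · obtain ⟨f, hf⟩ := exists_f A x hx
      exact ⟨f, fun _ => hf⟩
    · exact ⟨0, fun h => absurd h hx⟩
  choose s hs1 using hs0
  refine ⟨{ I := Finset (UA A) × ℕ
            F := atTop
            ne := inferInstance
            n := n
            pos := hn
            Ψ := fun i x => Lf W i (s x)
            bdd := ?_
            one := ?_
            add := ?_
            smul := ?_
            mul := ?_
            star := ?_
            trace := ?_ }⟩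
  · intro x _
    exact ⟨_, fun i X => L_bdd (s x) i X⟩
  · have h1 := rel2 (s 1) (Finsupp.single 1 1) (by
      rw [hs1 1 (one_mem A), Pf_single, one_smul]; rfl)
    have h2 := n_one W hmul
    refine (h1.add h2).congr fun i => ?_
    rw [Lf_single, one_smul]
    abel
  · intro x hx y hy
    refine (rel2 (s (x + y)) (s x + s y) ?_).congr fun i => ?_
    · rw [map_add, hs1 _ (add_mem hx hy), hs1 x hx, hs1 y hy]
    · rw [map_add]
  · intro c x hx
    refine (rel2 (s (c • x)) (c • s x) ?_).congr fun i => ?_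
    · rw [map_smul, hs1 _ (A.toStarSubalgebra.smul_mem hx c), hs1 x hx]
    · rw [map_smul]
  · intro x hx y hy
    have h1 := rel2 (s (x * y)) (mulF (s x) (s y)) (by
      rw [Pf_mul, hs1 _ (mul_mem hx hy), hs1 x hx, hs1 y hy])
    refine (h1.add (L_mul hmul (s x) (s y))).congr fun i => ?_
    abel
  · intro x hx
    have h1 := rel2 (s (star x)) (stF (s x)) (by
      rw [Pf_star, hs1 _ (star_mem hx), hs1 x hx])
    refine (h1.add (L_star hmul (s x))).congr fun i => ?_
    abel
  · intro x hx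
    have h1 := L_trace (fun g : UA A => tr ξ ((g : unitary (Op H)) : Op H)) htr (s x)
    rw [tr_Pf, hs1 x hx] at h1
    exact h1

end

end Pool.Agent.P8H38.RE
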