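import Pool.Agent.W683.RC.Bas

/-!
# Package NET of project RE (helper72): asymptotic representations, generic part (helper38)
-/

set_option autoImplicit false

open scoped Topology ComplexOrder
open Filter Matrix

namespace Pool.Agent.P8H38.RE

open Pool.Agent.W661.RC (hs)
open Pool.Agent.W683.RC

noncomputable section

variable {I : Type} {F : Filter I} {n : I → ℕ}

/-- families of matrices which tend to zero in the normalised Hilbert-Schmidt norm -/
def Null (F : Filter I) (n : I → ℕ) (X : ∀ i, Matrix (Fin (n i)) (Fin (n i)) ℂ) : Prop :=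
  Tendsto (fun i => hs (X i) / n i) F (𝓝 0)

theorem Null.of_le {X Y : ∀ i, Matrix (Fin (n i)) (Fin (n i)) ℂ} (hX : Null F n X) (C : ℝ)
    (h : ∀ i, hs (Y i) ≤ C * hs (X i)) : Null F n Y := by
  have h1 : Tendsto (fun i => C * (hs (X i) / n i)) F (𝓝 0) := by
    have := hX.const_mul C
    simpa using this
  refine squeeze_zero (fun i => div_nonneg (hs_nonneg _) (Nat.cast_nonneg _)) (fun i => ?_) h1
  rw [← mul_div_assoc]
  exact div_le_div_of_nonneg_right (h i) (Nat.cast_nonneg _)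

theorem Null.zero : Null F n (fun _ => 0) := by
  unfold Null
  simp only [hs_zero, zero_div]
  exact tendsto_const_nhds

theorem Null.add {X Y : ∀ i, Matrix (Fin (n i)) (Fin (n i)) ℂ} (hX : Null F n X)
    (hY : Null F n Y) : Null F n (fun i => X i + Y i) := by
  have h1 : Tendsto (fun i => 2 * (hs (X i) / n i) + 2 * (hs (Y i) / n i)) F (𝓝 0) := by
    have := (Tendsto.const_mul 2 hX).add (Tendsto.const_mul 2 hY)
    simpa using this
  refine squeeze_zero (fun i => div_nonneg (hs_nonneg _) (Nat.cast_nonneg _)) (fun i => ?_) h1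
  rw [← mul_div_assoc, ← mul_div_assoc, ← add_div]
  exact div_le_div_of_nonneg_right (hs_add_le _ _) (Nat.cast_nonneg _)

theorem Null.neg {X : ∀ i, Matrix (Fin (n i)) (Fin (n i)) ℂ} (hX : Null F n X) :
    Null F n (fun i => -X i) := hX.of_le 1 fun i => by rw [hs_neg, one_mul]

theorem Null.sub {X Y : ∀ i, Matrix (Fin (n i)) (Fin (n i)) ℂ} (hX : Null F n X)
    (hY : Null F n Y) : Null F n (fun i => X i - Y i) := by
  have := hX.add hY.neg
  simpa only [← sub_eq_add_neg] using this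

theorem Null.smul {X : ∀ i, Matrix (Fin (n i)) (Fin (n i)) ℂ} (hX : Null F n X) (c : ℂ) :
    Null F n (fun i => c • X i) := hX.of_le (‖c‖ ^ 2) fun i => by rw [hs_smul]

theorem Null.star {X : ∀ i, Matrix (Fin (n i)) (Fin (n i)) ℂ} (hX : Null F n X) :
    Null F n (fun i => (X i)ᴴ) := hX.of_le 1 fun i => by rw [hs_conjTranspose, one_mul]

theorem Null.sum {J : Type} (s : Finset J) {X : J → ∀ i, Matrix (Fin (n i)) (Fin (n i)) ℂ}
    (hX : ∀ j ∈ s, Null F n (X j)) : Null F n (fun i => ∑ j ∈ s, X j i) := by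
  classical
  induction s using Finset.induction_on with
  | empty => simpa using Null.zero
  | insert a s ha ih =>
    simp only [Finset.sum_insert ha]
    exact (hX a (Finset.mem_insert_self _ _)).add
      (ih fun j hj => hX j (Finset.mem_insert_of_mem hj))

theorem Null.congr {X Y : ∀ i, Matrix (Fin (n i)) (Fin (n i)) ℂ} (hX : Null F n X)
    (h : ∀ i, Y i = X i) : Null F n Y := hX.of_le 1 fun i => by rw [h, one_mul]

/-- the trace of a null family -/
theorem Null.trace {X : ∀ i, Matrix (Fin (n i)) (Fin (n i)) ℂ} (hX : Null F n X)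
    (hn : ∀ i, 0 < n i) : Tendsto (fun i => Matrix.trace (X i) / (n i : ℂ)) F (𝓝 0) := by
  rw [tendsto_zero_iff_norm_tendsto_zero]
  have h1 : Tendsto (fun i => √(hs (X i) / n i)) F (𝓝 0) := by
    have := hX.sqrt
    simpa using this
  refine squeeze_zero (fun i => norm_nonneg _) (fun i => ?_) h1
  have hn0 : (0 : ℝ) < n i := Nat.cast_pos.2 (hn i)
  have h2 := norm_trace_le (1 : Matrix (Fin (n i)) (Fin (n i)) ℂ) (X i)
  rw [Matrix.conjTranspose_one, Matrix.one_mul] at h2
  have h3 : hs (1 : Matrix (Fin (n i)) (Fin (n i)) ℂ) = n i := by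
    rw [hs_eq, Matrix.conjTranspose_one, Matrix.one_mul, Matrix.trace_one]
    simp
  rw [h3] at h2
  rw [norm_div, Complex.norm_natCast, Real.sqrt_div (hs_nonneg _), div_le_div_iff₀ hn0
    (Real.sqrt_pos.2 hn0)]
  calc ‖Matrix.trace (X i)‖ * √(n i) ≤ (√(n i) * √(hs (X i))) * √(n i) := by gcongr
    _ = √(hs (X i)) * (√(n i) * √(n i)) := by ring
    _ = √(hs (X i)) * n i := by rw [Real.mul_self_sqrt hn0.le]

variable {G : Type} [Group G] (W : ∀ i, G → unitaryGroup (Fin (n i)) ℂ)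

/-- linear extension -/
def Lf (i : I) : (G →₀ ℂ) →ₗ[ℂ] Matrix (Fin (n i)) (Fin (n i)) ℂ :=
  Finsupp.linearCombination ℂ (fun g => (W i g).1)

omit [Group G] in
theorem Lf_eq (i : I) (f : G →₀ ℂ) : Lf W i f = ∑ a ∈ f.support, f a • (W i a).1 := by
  unfold Lf
  rw [Finsupp.linearCombination_apply, Finsupp.sum]

omit [Group G] in
theorem Lf_single (i : I) (g : G) (c : ℂ) : Lf W i (Finsupp.single g c) = c • (W i g).1 := by
  unfold Lf
  rw [Finsupp.linearCombination_single]

theorem uu {m : ℕ} (U : unitaryGroup (Fin m) ℂ) : (U.1)ᴴ * U.1 = 1 :=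
  (Matrix.mem_unitaryGroup_iff').1 U.2

theorem uu' {m : ℕ} (U : unitaryGroup (Fin m) ℂ) : U.1 * (U.1)ᴴ = 1 :=
  (Matrix.mem_unitaryGroup_iff).1 U.2

variable (hmul : ∀ g h, Null F n (fun i => (W i (g * h)).1 - (W i g).1 * (W i h).1))

include hmul in
theorem n_one : Null F n (fun i => (W i 1).1 - 1) := by
  refine (hmul 1 1).of_le 1 fun i => ?_
  rw [one_mul, one_mul, ← hs_isom_mul (uu (W i 1)) ((W i 1).1 - 1), Matrix.mul_sub, Matrix.mul_one,
    hs_sub_comm]

include hmul in
theorem n_starmul (a b : G) : Null F n (fun i => (W i a).1ᴴ * (W i b).1 - (W i (a⁻¹ * b)).1) := by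
  have h := hmul a (a⁻¹ * b)
  refine h.of_le 1 fun i => ?_
  rw [one_mul, ← hs_isom_mul (uu (W i a)) ((W i a).1ᴴ * (W i b).1 - (W i (a⁻¹ * b)).1),
    Matrix.mul_sub, ← Matrix.mul_assoc, uu', Matrix.one_mul, mul_inv_cancel_left]

include hmul in
theorem n_star (a : G) : Null F n (fun i => (W i a).1ᴴ - (W i a⁻¹).1) := by
  have h1 := n_starmul W hmul a 1
  rw [mul_one] at h1
  have h2 := n_one W hmul
  have h3 : Null F n (fun i => (W i a).1ᴴ * ((W i 1).1 - 1)) := by
    refine h2.of_le 1 fun i => ?_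
    rw [one_mul, hs_isom_mul]
    rw [Matrix.conjTranspose_conjTranspose]
    exact uu' _
  refine (h1.sub h3).congr fun i => ?_
  rw [Matrix.mul_sub, Matrix.mul_one]
  abel

variable {W}

/-- limit of the norms -/
theorem hs_lim (hmul : ∀ g h, Null F n (fun i => (W i (g * h)).1 - (W i g).1 * (W i h).1))
    (hn : ∀ i, 0 < n i) (τ : G → ℂ)
    (htr : ∀ g, Tendsto (fun i => Matrix.trace (W i g).1 / (n i : ℂ)) F (𝓝 (τ g)))
    (f : G →₀ ℂ) :
    Tendsto (fun i => hs (Lf W i f) / n i) F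
      (𝓝 (∑ a ∈ f.support, ∑ b ∈ f.support, star (f a) * f b * τ (a⁻¹ * b)).re) := by
  have key : ∀ a b : G, Tendsto (fun i => Matrix.trace ((W i a).1ᴴ * (W i b).1) / (n i : ℂ)) F
      (𝓝 (τ (a⁻¹ * b))) := by
    intro a b
    have h1 := ((n_starmul W hmul a b).trace hn).add (htr (a⁻¹ * b))
    rw [zero_add] at h1
    refine h1.congr fun i => ?_
    rw [← add_div, Matrix.trace_sub, sub_add_cancel]
  have h2 : Tendsto (fun i => ∑ a ∈ f.support, ∑ b ∈ f.support, star (f a) * f b *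
      (Matrix.trace ((W i a).1ᴴ * (W i b).1) / (n i : ℂ))) F
      (𝓝 (∑ a ∈ f.support, ∑ b ∈ f.support, star (f a) * f b * τ (a⁻¹ * b))) :=
    tendsto_finsetSum _ fun a _ => tendsto_finsetSum _ fun b _ => (key a b).const_mul _
  have h3 := (Complex.continuous_re.tendsto _).comp h2
  refine h3.congr fun i => ?_
  have h4 : (∑ a ∈ f.support, ∑ b ∈ f.support, star (f a) * f b *
      (Matrix.trace ((W i a).1ᴴ * (W i b).1) / (n i : ℂ))) =
      Matrix.trace ((Lf W i f)ᴴ * Lf W i f) / (n i : ℂ) := by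
    rw [Lf_eq, Matrix.conjTranspose_sum, Finset.sum_mul_sum, Matrix.trace_sum, Finset.sum_div]
    refine Finset.sum_congr rfl fun a _ => ?_
    rw [Matrix.trace_sum, Finset.sum_div]
    refine Finset.sum_congr rfl fun b _ => ?_
    rw [Matrix.conjTranspose_smul, Matrix.smul_mul, Matrix.mul_smul, Matrix.trace_smul,
      Matrix.trace_smul, smul_eq_mul, smul_eq_mul]
    ring
  simp only [Function.comp_apply]
  rw [h4, trace_conjTranspose_mul_self]
  norm_cast

/-- the product of finite sums -/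
def mulF (f g : G →₀ ℂ) : G →₀ ℂ :=
  ∑ a ∈ f.support, ∑ b ∈ g.support, Finsupp.single (a * b) (f a * g b)

/-- the adjoint of finite sums -/
def stF (f : G →₀ ℂ) : G →₀ ℂ := ∑ a ∈ f.support, Finsupp.single a⁻¹ (star (f a))

theorem L_mul (hmul : ∀ g h, Null F n (fun i => (W i (g * h)).1 - (W i g).1 * (W i h).1))
    (f g : G →₀ ℂ) : Null F n (fun i => Lf W i (mulF f g) - Lf W i f * Lf W i g) := by
  have h1 : Null F n (fun i => ∑ a ∈ f.support, ∑ b ∈ g.support,
      (f a * g b) • ((W i (a * b)).1 - (W i a).1 * (W i b).1)) :=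
    Null.sum _ fun a _ => Null.sum _ fun b _ => (hmul a b).smul _
  refine h1.congr fun i => ?_
  rw [mulF, map_sum, Lf_eq W i f, Lf_eq W i g, Finset.sum_mul_sum, ← Finset.sum_sub_distrib]
  refine Finset.sum_congr rfl fun a _ => ?_
  rw [map_sum, ← Finset.sum_sub_distrib]
  refine Finset.sum_congr rfl fun b _ => ?_
  rw [Lf_single, smul_sub, Matrix.smul_mul, Matrix.mul_smul, smul_smul]

theorem L_star (hmul : ∀ g h, Null F n (fun i => (W i (g * h)).1 - (W i g).1 * (W i h).1))
    (f : G →₀ ℂ) : Null F n (fun i => Lf W i (stF f) - (Lf W i f)ᴴ) := by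
  have h1 : Null F n (fun i => ∑ a ∈ f.support,
      (-star (f a)) • ((W i a).1ᴴ - (W i a⁻¹).1)) :=
    Null.sum _ fun a _ => (n_star W hmul a).smul _
  refine h1.congr fun i => ?_
  rw [stF, map_sum, Lf_eq W i f, Matrix.conjTranspose_sum, ← Finset.sum_sub_distrib]
  refine Finset.sum_congr rfl fun a _ => ?_
  rw [Lf_single, Matrix.conjTranspose_smul, smul_sub, neg_smul, neg_smul]
  abel

omit [Group G] in
theorem L_bdd (f : G →₀ ℂ) (i : I) (X : Matrix (Fin (n i)) (Fin (n i)) ℂ) :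
    hs (Lf W i f * X) ≤ (f.support.card * ∑ a ∈ f.support, ‖f a‖ ^ 2) * hs X ∧
    hs (X * Lf W i f) ≤ (f.support.card * ∑ a ∈ f.support, ‖f a‖ ^ 2) * hs X := by
  rw [Lf_eq]
  constructor
  · rw [Finset.sum_mul]
    refine (hs_sum_le _ _).trans (le_of_eq ?_)
    rw [mul_assoc, Finset.sum_mul]
    congr 1
    refine Finset.sum_congr rfl fun a _ => ?_
    rw [Matrix.smul_mul, hs_smul, hs_isom_mul (uu _)]
  · rw [Finset.mul_sum]
    refine (hs_sum_le _ _).trans (le_of_eq ?_)
    rw [mul_assoc, Finset.sum_mul]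
    congr 1
    refine Finset.sum_congr rfl fun a _ => ?_
    rw [Matrix.mul_smul, hs_smul, hs_mul_coisom (uu' _)]

omit [Group G] in
theorem L_trace (τ : G → ℂ)
    (htr : ∀ g, Tendsto (fun i => Matrix.trace (W i g).1 / (n i : ℂ)) F (𝓝 (τ g)))
    (f : G →₀ ℂ) :
    Tendsto (fun i => Matrix.trace (Lf W i f) / (n i : ℂ)) F
      (𝓝 (∑ a ∈ f.support, f a * τ a)) := by
  have h2 : Tendsto (fun i => ∑ a ∈ f.support, f a * (Matrix.trace (W i a).1 / (n i : ℂ))) F
      (𝓝 (∑ a ∈ f.support, f a * τ a)) :=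
    tendsto_finsetSum _ fun a _ => (htr a).const_mul _
  refine h2.congr fun i => ?_
  rw [Lf_eq, Matrix.trace_sum, Finset.sum_div]
  refine Finset.sum_congr rfl fun a _ => ?_
  rw [Matrix.trace_smul, smul_eq_mul]
  ring

end

end Pool.Agent.P8H38.RE
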